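import Pool.Agent.N162.CV.Pl

/-!
CV/A2: points with a relation of high degree lie on a plane curve of low degree.
-/

set_option autoImplicit false

open MvPolynomial

namespace Pool.Agent.N169.CV

open Pool.Agent.N162.CV

section

variable {Ω ι : Type} [Field Ω]

/-- evaluation at finitely many points -/
noncomputable def evS (S : Finset ι) (p : ι → Fin 2 → Ω) :
    MvPolynomial (Fin 2) Ω →ₗ[Ω] (S → Ω) where
  toFun P i := eval (p i) P
  map_add' P Q := by ext i; simp
  map_smul' c P := by ext i; simp [smul_eval]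

theorem dim_le (hd : StDIM) (S : Finset ι) (p : ι → Fin 2 → Ω) (k : ℕ)
    (W : Submodule Ω (MvPolynomial (Fin 2) Ω)) [FiniteDimensional Ω W]
    (h : ∀ P : MvPolynomial (Fin 2) Ω, P.totalDegree ≤ k → (∀ i ∈ S, eval (p i) P = 0) → P ∈ W) :
    Module.finrank Ω (restrictTotalDegree (Fin 2) Ω k) ≤ S.card + Module.finrank Ω W := by
  have hfd := (hd Ω k).1
  set f := (evS S p).domRestrict (restrictTotalDegree (Fin 2) Ω k) with hf
  have h1 := LinearMap.finrank_range_add_finrank_ker f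
  have h2 : Module.finrank Ω (LinearMap.range f) ≤ S.card := by
    have := Submodule.finrank_le (LinearMap.range f)
    simpa using this
  have h3 : Module.finrank Ω (LinearMap.ker f) ≤ Module.finrank Ω W := by
    let g : LinearMap.ker f →ₗ[Ω] W := LinearMap.codRestrict W
      ((Submodule.subtype (restrictTotalDegree (Fin 2) Ω k)).comp
        (Submodule.subtype (LinearMap.ker f))) (by
      rintro ⟨⟨P, hP⟩, hx⟩
      refine h P ((mem_restrictTotalDegree _ _ _).1 hP) ?_
      intro i hi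
      exact congrFun (LinearMap.mem_ker.1 hx) ⟨i, hi⟩)
    apply LinearMap.finrank_le_finrank_of_injective (f := g)
    intro x y hxy
    have := congrArg Subtype.val hxy
    exact Subtype.ext (Subtype.ext this)
  omega

theorem X_sub_C_ne (c : Ω) : (X 0 - C c : MvPolynomial (Fin 2) Ω) ≠ 0 := by
  intro h
  have := congrArg (eval (fun _ => c + 1)) h
  simp at this

theorem exists_vanish (S : Finset ι) (p : ι → Fin 2 → Ω) :
    ∃ a : ℕ, ∃ A : MvPolynomial (Fin 2) Ω, A ≠ 0 ∧ A.totalDegree = a ∧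
      ∀ i ∈ S, eval (p i) A = 0 := by
  refine ⟨_, ∏ i ∈ S, (X 0 - C (p i 0)), ?_, rfl, ?_⟩
  · exact Finset.prod_ne_zero_iff.2 fun i _ => X_sub_C_ne _
  · intro i hi
    rw [eval_prod]
    exact Finset.prod_eq_zero hi (by simp)

theorem claim [IsAlgClosed Ω] (h : StA1) (S : Finset ι) (p : ι → Fin 2 → Ω) (lam : ι → Ω)
    (m a k : ℕ) (A P : MvPolynomial (Fin 2) Ω) (hinj : Set.InjOn p S)
    (hl : ∀ i ∈ S, lam i ≠ 0) (hr : PRel m S p lam) (hA : A ≠ 0) (hAd : A.totalDegree = a)
    (hAz : ∀ i ∈ S, eval (p i) A = 0)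
    (hmin : ∀ B : MvPolynomial (Fin 2) Ω, B ≠ 0 → (∀ i ∈ S, eval (p i) B = 0) →
      a ≤ B.totalDegree) (hk : a + k = m + 2) (hkm : k ≤ m) (hP : P.totalDegree ≤ k)
    (hPz : ∀ i ∈ S, eval (p i) P = 0) : A ∣ P := by
  classical
  by_contra hnd
  have hP0 : P ≠ 0 := by
    rintro rfl
    exact hnd (dvd_zero A)
  obtain ⟨A1, P1, G, hrel, hGA, hGP⟩ := UniqueFactorizationMonoid.exists_reduced_factors A hA P
  have hG0 : G ≠ 0 := by
    rintro rfl
    apply hA
    rw [← hGA, zero_mul]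
  have hA1 : A1 ≠ 0 := by
    rintro rfl
    apply hA
    rw [← hGA, mul_zero]
  have hP1 : P1 ≠ 0 := by
    rintro rfl
    apply hP0
    rw [← hGP, mul_zero]
  have dA : G.totalDegree + A1.totalDegree = a := by
    rw [← hAd, ← hGA, totalDegree_mul_of_isDomain hG0 hA1]
  have dP : G.totalDegree + P1.totalDegree = P.totalDegree := by
    rw [← hGP, totalDegree_mul_of_isDomain hG0 hP1]
  have hA1d : A1.totalDegree ≠ 0 := by
    intro h0
    obtain ⟨c, hc⟩ : ∃ c, A1 = C c := ⟨_, totalDegree_eq_zero_iff_eq_C.1 h0⟩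
    have hc0 : c ≠ 0 := by
      rintro rfl
      exact hA1 (by rw [hc, C_0])
    apply hnd
    refine ⟨C c⁻¹ * P1, ?_⟩
    have e : (C c : MvPolynomial (Fin 2) Ω) * C c⁻¹ = 1 := by
      rw [← C_mul, mul_inv_cancel₀ hc0, C_1]
    rw [← hGA, ← hGP, hc]
    calc G * P1 = G * (C c * C c⁻¹) * P1 := by rw [e, mul_one]
      _ = G * C c * (C c⁻¹ * P1) := by ring
  set S' := S.filter (fun i => eval (p i) G ≠ 0) with hS'
  have hne : S'.Nonempty := by
    rw [Finset.nonempty_iff_ne_empty]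
    intro he
    have hz : ∀ i ∈ S, eval (p i) G = 0 := by
      intro i hi
      by_contra hc
      have : i ∈ S' := Finset.mem_filter.2 ⟨hi, hc⟩
      rw [he] at this
      exact absurd this (Finset.notMem_empty i)
    have := hmin G hG0 hz
    omega
  have hmem : ∀ i ∈ S', i ∈ S ∧ eval (p i) G ≠ 0 := fun i hi => Finset.mem_filter.1 hi
  have hz1 : ∀ i ∈ S', eval (p i) A1 = 0 ∧ eval (p i) P1 = 0 := by
    intro i hi
    obtain ⟨hi1, hi2⟩ := hmem i hi
    have e1 := hAz i hi1
    have e2 := hPz i hi1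
    rw [← hGA, map_mul] at e1
    rw [← hGP, map_mul] at e2
    exact ⟨(mul_eq_zero.1 e1).resolve_left hi2, (mul_eq_zero.1 e2).resolve_left hi2⟩
  have hgm : G.totalDegree ≤ m := by omega
  have hrel' : PRel (m - G.totalDegree) S' p (fun i => lam i * eval (p i) G) := by
    intro Q hQ
    have h1 := hr (G * Q) ((totalDegree_mul G Q).trans (by omega))
    rw [← h1, hS', Finset.sum_filter]
    refine Finset.sum_congr rfl fun i _ => ?_
    by_cases hi : eval (p i) G = 0
    · rw [if_neg (not_not.2 hi), map_mul, hi, zero_mul, mul_zero]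
    · rw [if_pos hi, map_mul, mul_assoc]
  have key := h Ω ι S' p (fun i => lam i * eval (p i) G) (m - G.totalDegree) A1 P1 hne
    (hinj.mono (fun i hi => (hmem i hi).1))
    (fun i hi => mul_ne_zero (hl i (hmem i hi).1) (hmem i hi).2) hrel' hA1 hP1 hrel hz1
  omega

end

theorem num2 (m N a c : ℕ) (hN : 1 ≤ N) (hm : 2 * N ^ 2 + 6 * N ≤ m) (hc : c ≤ N * (m + 4))
    (ha : m + 3 ≤ 2 * a) (h : a * (a + 1) ≤ 2 * c) : False := by
  have h8 : 8 * N ≤ m := by nlinarith
  have h1 : (m + 3) * (m + 5) ≤ (2 * a) * (2 * a + 2) := Nat.mul_le_mul ha (by omega)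
  nlinarith [Nat.mul_le_mul_right m h8]

theorem num1 (m N a c : ℤ) (hN : 1 ≤ N) (hm : 2 * N ^ 2 + 6 * N ≤ m) (hc : c ≤ N * (m + 4))
    (ha1 : N + 1 ≤ a) (ha2 : 2 * a ≤ m + 2) (h : a * (2 * m + 7 - 3 * a) ≤ 2 * c) : False := by
  have h1 : 0 ≤ (a - (N + 1)) * ((m + 2) - 2 * a) :=
    mul_nonneg (by linarith) (by linarith)
  have h2 : 0 ≤ (a - (N + 1)) * (m + 2 - 6 * N) :=
    mul_nonneg (by linarith) (by nlinarith)
  nlinarith [h1, h2]

theorem a2_ (h : StA1) (hd : StDIM) : StA2 := by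
  intro Ω _ _ ι S p lam m N hN hm hc hinj hl hr
  classical
  by_contra hno
  push Not at hno
  have hex := exists_vanish S p
  set a := Nat.find hex with ha
  obtain ⟨A, hA, hAd, hAz⟩ := Nat.find_spec hex
  rw [← ha] at hAd
  have hmin : ∀ B : MvPolynomial (Fin 2) Ω, B ≠ 0 → (∀ i ∈ S, eval (p i) B = 0) →
      a ≤ B.totalDegree := fun B hB hBz => Nat.find_min' hex ⟨B, hB, rfl, hBz⟩
  have haN : N + 1 ≤ a := by
    by_contra hlt
    obtain ⟨i, hi, hne⟩ := hno A hA (by omega)
    exact hne (hAz i hi)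
  by_cases h2 : 2 * a ≤ m + 2
  · obtain ⟨k, hk⟩ : ∃ k, a + k = m + 2 := ⟨m + 2 - a, by omega⟩
    have hkm : k ≤ m := by omega
    have hak : a ≤ k := by omega
    obtain ⟨j, hj⟩ : ∃ j, a + j = k := ⟨k - a, by omega⟩
    have hfj := (hd Ω j).1
    let L : restrictTotalDegree (Fin 2) Ω j →ₗ[Ω] MvPolynomial (Fin 2) Ω :=
      (LinearMap.mulLeft Ω A).comp (Submodule.subtype _)
    have hW : FiniteDimensional Ω (LinearMap.range L) := inferInstance
    have hdim := dim_le hd S p k (LinearMap.range L) (by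
      intro P hP hPz
      obtain ⟨Q, hQ⟩ := claim h S p lam m a k A P hinj hl hr hA hAd hAz hmin hk hkm hP hPz
      refine ⟨⟨Q, (mem_restrictTotalDegree _ _ _).2 ?_⟩, ?_⟩
      · by_cases hQ0 : Q = 0
        · rw [hQ0, totalDegree_zero]
          exact Nat.zero_le _
        · have := totalDegree_mul_of_isDomain hA hQ0
          rw [← hQ] at this
          omega
      · exact hQ.symm)
    have hr1 := LinearMap.finrank_range_le L
    have e1 := (hd Ω k).2
    have e2 := (hd Ω j).2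
    have h3 : (k + 1) * (k + 2) ≤ 2 * S.card + (j + 1) * (j + 2) := by
      rw [← e1, ← e2]
      omega
    have h4 : ((k : ℤ) + 1) * (k + 2) ≤ 2 * S.card + (j + 1) * (j + 2) := by exact_mod_cast h3
    have hkz : (k : ℤ) = m + 2 - a := by
      have : ((a + k : ℕ) : ℤ) = ((m + 2 : ℕ) : ℤ) := by rw [hk]
      push_cast at this
      linarith
    have hjz : (j : ℤ) = m + 2 - 2 * a := by
      have : ((a + j : ℕ) : ℤ) = (k : ℤ) := by rw [hj]
      push_cast at this
      linarith
    refine num1 m N a S.card (by exact_mod_cast hN) (by exact_mod_cast hm) (by exact_mod_cast hc)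
      (by exact_mod_cast haN) (by exact_mod_cast h2) ?_
    rw [hkz, hjz] at h4
    nlinarith [h4]
  · obtain ⟨b, hb⟩ : ∃ b, a = b + 1 := ⟨a - 1, by omega⟩
    have hdim := dim_le hd S p b ⊥ (by
      intro P hP hPz
      rw [Submodule.mem_bot]
      by_contra hP0
      have := hmin P hP0 hPz
      omega)
    rw [finrank_bot, add_zero] at hdim
    have e1 := (hd Ω b).2
    refine num2 m N a S.card hN hm hc (by omega) ?_
    rw [hb]
    have : (b + 1) * (b + 1 + 1) = (b + 1) * (b + 2) := rfl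
    rw [this, ← e1]
    omega

end Pool.Agent.N169.CV
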